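import Pool.Agent.Helper68.LM.Geo

set_option autoImplicit false

open MeasureTheory Set Filter Topology
open scoped ENNReal RealInnerProductSpace
open Pool.Agent.Helper68.LM
open Pool.Agent.Helper61.Lacunary (ConditionG LpBounded arclength linePlus capPlus capMinus
  capLength Admissible capIntegral)

namespace Pool.Agent.Helper12.LM

theorem linePlus_eq {Ω : Set Pl} {P v : Pl} (hne : Ω.Nonempty) (hP : P ∈ closure Ω)
    (h : ∀ x ∈ Ω, 0 ≤ ⟪x - P, v⟫) : linePlus Ω (-v) = {z : Pl | ⟪z, -v⟫ = ⟪P, -v⟫} := by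
  have hlub : IsLUB ((fun y : Pl => ⟪y, -v⟫) '' Ω) ⟪P, -v⟫ := by
    constructor
    · rintro _ ⟨x, hx, rfl⟩
      have h1 := h x hx
      have h2 : ⟪x - P, v⟫ = ⟪P, -v⟫ - ⟪x, -v⟫ := by
        rw [inner_sub_left, inner_neg_right, inner_neg_right]; ring
      show ⟪x, -v⟫ ≤ ⟪P, -v⟫
      linarith
    · intro b hb
      have hcl : IsClosed {y : Pl | ⟪y, -v⟫ ≤ b} :=
        isClosed_le (continuous_id.inner continuous_const) continuous_const
      have hsub : Ω ⊆ {y : Pl | ⟪y, -v⟫ ≤ b} := fun x hx => hb ⟨x, hx, rfl⟩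
      exact hcl.closure_subset_iff.2 hsub hP
  ext z
  show ⟪z, -v⟫ = sSup ((fun y : Pl => ⟪y, -v⟫) '' Ω) ↔ ⟪z, -v⟫ = ⟪P, -v⟫
  rw [hlub.csSup_eq (hne.image _)]

theorem length_curve {P u v : Pl} {φ : ℝ → ℝ} (hu : ‖u‖ = 1) (huv : ⟪u, v⟫ = 0) (t : ℝ) :
    ENNReal.ofReal t ≤ (μH[1] : Measure Pl) (curve P u v φ '' Ioo 0 t) := by
  have hL : LipschitzWith 1 (fun y : Pl => ⟪y, u⟫) := by
    refine LipschitzWith.of_dist_le_mul fun x y => ?_
    rw [Real.dist_eq, ← inner_sub_left]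
    have h1 := abs_real_inner_le_norm (x - y) u
    rw [hu, mul_one] at h1
    rw [dist_eq_norm]
    simpa using h1
  have h := hL.hausdorffMeasure_image_le (d := 1) zero_le_one (curve P u v φ '' Ioo 0 t)
  have hsub : Ioo ⟪P, u⟫ (⟪P, u⟫ + t) ⊆ (fun y : Pl => ⟪y, u⟫) '' (curve P u v φ '' Ioo 0 t) := by
    intro r hr
    refine ⟨curve P u v φ (r - ⟪P, u⟫), ⟨r - ⟪P, u⟫, ⟨?_, ?_⟩, rfl⟩, ?_⟩
    · linarith [hr.1]
    · linarith [hr.2]
    · show ⟪curve P u v φ (r - ⟪P, u⟫), u⟫ = r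
      have hvu : ⟪v, u⟫ = 0 := by rw [real_inner_comm]; exact huv
      unfold curve
      rw [inner_add_left, inner_add_left, inner_smul_left, inner_smul_left,
        real_inner_self_eq_norm_sq, hu, hvu]
      simp
  have h3 : (μH[1] : Measure ℝ) (Ioo ⟪P, u⟫ (⟪P, u⟫ + t)) = ENNReal.ofReal t := by
    rw [hausdorffMeasure_real, Real.volume_Ioo]; congr 1; ring
  calc ENNReal.ofReal t = (μH[1] : Measure ℝ) (Ioo ⟪P, u⟫ (⟪P, u⟫ + t)) := h3.symm
    _ ≤ (μH[1] : Measure ℝ) ((fun y : Pl => ⟪y, u⟫) '' (curve P u v φ '' Ioo 0 t)) :=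
        measure_mono hsub
    _ ≤ _ := by simpa using h

theorem lint_inv {a b : ℝ} (ha : 0 < a) (hab : a ≤ b) :
    ∫⁻ δ in Ioo a b, ENNReal.ofReal δ⁻¹ = ENNReal.ofReal (Real.log (b / a)) := by
  have hint : IntegrableOn (fun δ : ℝ => δ⁻¹) (Ioo a b) := by
    have : ContinuousOn (fun δ : ℝ => δ⁻¹) (Icc a b) :=
      continuousOn_inv₀.mono fun x hx => (lt_of_lt_of_le ha hx.1).ne'
    exact (this.integrableOn_Icc).mono_set Ioo_subset_Icc_self
  rw [← ofReal_integral_eq_lintegral_ofReal hint]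
  · congr 1
    rw [← integral_Ioc_eq_integral_Ioo, ← intervalIntegral.integral_of_le hab,
      integral_inv_of_pos ha (lt_of_lt_of_le ha hab)]
  · refine (ae_restrict_iff' measurableSet_Ioo).2 (Eventually.of_forall fun x hx => ?_)
    exact inv_nonneg.2 (le_of_lt (lt_trans ha hx.1))

/-- Module CAP. -/
theorem hCAP (hSD : StSD) (hSUP : StSUP) : StCAP := by
  intro Ω P u v c q φ hop hconv _ hne hq hG hS hPf hcurve
  obtain ⟨⟨δ₀, hadm⟩, hG2⟩ := hG
  obtain ⟨A', hA'⟩ := hG2 δ₀ hadm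
  have hδ₀ : 0 < δ₀ := hadm.1
  have hsd := hSD P u v c φ hS
  have hsup := hSUP Ω P u v c φ hop hconv hne hS hcurve
  obtain ⟨hu, hv, huv, hc0, hc1, -, hcont, -, -, -, -⟩ := hS
  have hline := linePlus_eq (v := v) hne (frontier_subset_closure hPf) hsup
  have hmono : StrictMonoOn φ (Ioo 0 c) := by
    refine strictMonoOn_of_deriv_pos (convex_Ioo 0 c) (hcont.mono Ioo_subset_Icc_self) ?_
    intro x hx
    rw [interior_Ioo] at hx
    exact (hsd x hx).2.1
  have hcap : ∀ t ∈ Ioo 0 c, ∀ δ, φ t ≤ δ → ENNReal.ofReal t ≤ capLength Ω (-v) δ := by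
    intro t ht δ hδ
    refine le_trans (length_curve (P := P) (v := v) (φ := φ) hu huv t)
      (le_trans ?_ (le_max_left _ _))
    unfold arclength
    rw [Measure.restrict_apply' isClosed_frontier.measurableSet]
    refine measure_mono ?_
    rintro _ ⟨s, hs, rfl⟩
    have hsc : s ∈ Ioo 0 c := ⟨hs.1, lt_trans hs.2 ht.2⟩
    have hf : curve P u v φ s ∈ frontier Ω := hcurve ⟨s, hsc, rfl⟩
    refine ⟨⟨hf, ?_⟩, hf⟩
    have hz : P + s • u ∈ linePlus Ω (-v) := by
      rw [hline]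
      show ⟪P + s • u, -v⟫ = ⟪P, -v⟫
      rw [inner_add_left, inner_smul_left, inner_neg_right, inner_neg_right, huv]
      simp
    refine le_trans (Metric.infDist_le_dist_of_mem hz) ?_
    have : dist (curve P u v φ s) (P + s • u) = φ s := by
      rw [dist_eq_norm]
      unfold curve
      rw [add_sub_cancel_left, norm_smul, hv, mul_one, Real.norm_eq_abs,
        abs_of_pos (hsd s hsc).1]
    rw [this]
    exact le_trans (le_of_lt (hmono hsc ht hs.2)) hδ
  refine ⟨max A' 0 + |Real.log δ₀| + 1, by positivity, ?_⟩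
  intro t ht
  have ht0 : 0 < t := ht.1
  have ht1 : t ≤ 1 := le_trans (le_of_lt ht.2) hc1
  have hφ : 0 < φ t := (hsd t ht).1
  have htq : 0 < t ^ q := Real.rpow_pos_of_pos ht0 q
  have htq1 : 1 ≤ t ^ (-q) := by
    rw [Real.rpow_neg ht0.le]
    exact (one_le_inv₀ htq).2 (Real.rpow_le_one ht0.le ht1 hq.le)
  have hkey : Real.log δ₀ - max A' 0 * t ^ (-q) ≤ Real.log (φ t) := by
    rcases le_or_gt δ₀ (φ t) with h | h
    · have h1 : Real.log δ₀ ≤ Real.log (φ t) := Real.log_le_log hδ₀ h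
      have h2 : 0 ≤ max A' 0 * t ^ (-q) := mul_nonneg (le_max_right _ _) (by linarith)
      linarith
    · have h1 : ENNReal.ofReal (t ^ q * Real.log (δ₀ / φ t)) ≤ ENNReal.ofReal A' := by
        refine le_trans ?_ (hA' (-v) (by rw [norm_neg, hv]))
        unfold capIntegral
        calc ENNReal.ofReal (t ^ q * Real.log (δ₀ / φ t))
            = ENNReal.ofReal t ^ q * ∫⁻ δ in Ioo (φ t) δ₀, ENNReal.ofReal δ⁻¹ := by
              rw [lint_inv hφ h.le, ENNReal.ofReal_mul htq.le,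
                ENNReal.ofReal_rpow_of_pos ht0]
          _ = ∫⁻ δ in Ioo (φ t) δ₀, ENNReal.ofReal t ^ q * ENNReal.ofReal δ⁻¹ := by
              rw [lintegral_const_mul]
              exact ENNReal.measurable_ofReal.comp measurable_inv
          _ ≤ ∫⁻ δ in Ioo (φ t) δ₀, capLength Ω (-v) δ ^ q * ENNReal.ofReal δ⁻¹ := by
              refine setLIntegral_mono' measurableSet_Ioo fun δ hδ => ?_
              gcongr
              exact hcap t ht δ hδ.1.le
          _ ≤ ∫⁻ δ in Ioo 0 δ₀, capLength Ω (-v) δ ^ q * ENNReal.ofReal δ⁻¹ :=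
              lintegral_mono_set (Ioo_subset_Ioo_left hφ.le)
      have h2 : t ^ q * Real.log (δ₀ / φ t) ≤ max A' 0 := by
        have h3 : ENNReal.ofReal (t ^ q * Real.log (δ₀ / φ t)) ≤ ENNReal.ofReal (max A' 0) :=
          le_trans h1 (ENNReal.ofReal_le_ofReal (le_max_left _ _))
        exact (ENNReal.ofReal_le_ofReal_iff (le_max_right _ _)).1 h3
      rw [Real.log_div hδ₀.ne' hφ.ne'] at h2
      have h4 : Real.log δ₀ - Real.log (φ t) ≤ max A' 0 * t ^ (-q) := by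
        rw [Real.rpow_neg ht0.le, ← div_eq_mul_inv, le_div_iff₀ htq]
        linarith
      linarith
  rw [← Real.le_log_iff_exp_le hφ]
  have h5 : -|Real.log δ₀| ≤ Real.log δ₀ := neg_abs_le _
  have h6 : |Real.log δ₀| ≤ |Real.log δ₀| * t ^ (-q) :=
    le_mul_of_one_le_right (abs_nonneg _) htq1
  nlinarith
end Pool.Agent.Helper12.LM
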